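import Pool.Agent.H77.S3.Abs

/-!
# [H29 S3 NF] the normal form of a relator (think 1687, (3b))

`nf`: `G` nilpotent, generated by `a i`, `b i`, and `ρ = ∏ [a i, b i]` modulo the third term of the lower central series; then
`ρ = ∏ [a' i, b' i]` with `a' i ∈ a i [G, G]`, `b' i ∈ b i [G, G]`.
-/

set_option autoImplicit false
set_option linter.dupNamespace false

open scoped Classical commutatorElement

noncomputable section

namespace H29.S3

open H77.S3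

section Cen

variable {Q : Type*} [Group Q] {N : Subgroup Q}

/-- `[N, [Q, Q]] = 1` if `[N, Q]` is central -/
theorem br_der (h : ∀ n ∈ N, ∀ g x : Q, ⁅n, g⁆ * x = x * ⁅n, g⁆) {n : Q} (hn : n ∈ N) {y : Q}
    (hy : y ∈ commutator Q) : ⁅n, y⁆ = 1 := by
  have hinv : ∀ g : Q, ⁅n, g⁻¹⁆ = ⁅n, g⁆⁻¹ := by
    intro g
    have h2 : ⁅n, g⁆ * ⁅n, g⁻¹⁆ = 1 := by
      rw [← br_gmul h hn, mul_inv_cancel, commutatorElement_one_right]
    exact (inv_eq_of_mul_eq_one_right h2).symm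
  rw [commutator_eq_closure] at hy
  induction hy using Subgroup.closure_induction with
  | mem x hx =>
    obtain ⟨g, k, rfl⟩ := hx
    rw [commutatorElement_def g k, br_gmul h hn, br_gmul h hn, br_gmul h hn, hinv, hinv]
    have h1 := h n hn g ⁅n, k⁆
    have h2 := h n hn g⁻¹ ⁅n, k⁆
    calc ⁅n, g⁆ * ⁅n, k⁆ * ⁅n, g⁆⁻¹ * ⁅n, k⁆⁻¹ = ⁅n, k⁆ * ⁅n, g⁆ * ⁅n, g⁆⁻¹ * ⁅n, k⁆⁻¹ := by rw [h1]
      _ = 1 := by group
  | one => exact commutatorElement_one_right n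
  | mul x y _ _ hx hy => rw [br_gmul h hn, hx, hy, mul_one]
  | inv x _ hx => rw [hinv, hx, inv_one]

/-- `[a y, n] = [a, n]` for `y ∈ [Q, Q]` -/
theorem br_left (h : ∀ n ∈ N, ∀ g x : Q, ⁅n, g⁆ * x = x * ⁅n, g⁆) {n : Q} (hn : n ∈ N) {a a' : Q}
    (hy : a⁻¹ * a' ∈ commutator Q) : ⁅a', n⁆ = ⁅a, n⁆ := by
  have h1 : ⁅n, a'⁆ = ⁅n, a⁆ := by
    have h2 : a' = a * (a⁻¹ * a') := by group
    rw [h2, br_gmul h hn, br_der h hn hy, mul_one]
  rw [← commutatorElement_inv n a', ← commutatorElement_inv n a, h1]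

/-- the commutator after a change in `N` -/
theorem br_two (h : ∀ n ∈ N, ∀ g x : Q, ⁅n, g⁆ * x = x * ⁅n, g⁆) (hN : N ≤ commutator Q) {y y' : Q}
    (hy : y ∈ N) (hy' : y' ∈ N) (a b : Q) : ⁅a * y, b * y'⁆ = ⁅a, b⁆ * (⁅y, b⁆ * ⁅a, y'⁆) := by
  have h1 : ⁅y, b * y'⁆ = ⁅y, b⁆ := by rw [br_gmul h hy, br_der h hy (hN hy'), mul_one]
  have h2 : ⁅a, b * y'⁆ = ⁅a, b⁆ * ⁅a, y'⁆ := br_mul h hy' a b
  have h3 : ⁅a * y, b * y'⁆ = a * ⁅y, b * y'⁆ * a⁻¹ * ⁅a, b * y'⁆ := by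
    simp only [commutatorElement_def]
    group
  rw [h3, h1, h2]
  have h4 := h y hy b a
  have h5 := h y hy b ⁅a, b⁆
  calc a * ⁅y, b⁆ * a⁻¹ * (⁅a, b⁆ * ⁅a, y'⁆) = ⁅y, b⁆ * a * a⁻¹ * (⁅a, b⁆ * ⁅a, y'⁆) := by rw [h4]
    _ = ⁅y, b⁆ * ⁅a, b⁆ * ⁅a, y'⁆ := by group
    _ = _ := by rw [h5, mul_assoc]

theorem cen_prod {ι : Type*} (f z : ι → Q) (hz : ∀ i, ∀ x, z i * x = x * z i) (L : List ι) :
    (L.map fun i => f i * z i).prod = (L.map f).prod * (L.map z).prod := by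
  induction L with
  | nil => simp
  | cons a L ih =>
    rw [List.map_cons, List.prod_cons, List.map_cons, List.prod_cons, List.map_cons, List.prod_cons, ih]
    have h2 := hz a (L.map f).prod
    calc f a * z a * ((L.map f).prod * (L.map z).prod) = f a * (z a * (L.map f).prod) * (L.map z).prod := by
          simp only [mul_assoc]
      _ = f a * ((L.map f).prod * z a) * (L.map z).prod := by rw [h2]
      _ = _ := by simp only [mul_assoc]

end Cen

variable {G : Type*} [Group G]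

theorem nf_step {n : ℕ} (N : Subgroup G) [N.Normal] (hN : N ≤ commutator G) {a b : Fin n → G}
    (hg : Subgroup.closure (Set.range a ∪ Set.range b) = ⊤) {a' b' : Fin n → G}
    (ha : ∀ i, (a i)⁻¹ * a' i ∈ commutator G) (hb : ∀ i, (b i)⁻¹ * b' i ∈ commutator G) (ρ : G)
    (hw : (((List.finRange n).map fun i => ⁅a' i, b' i⁆).prod)⁻¹ * ρ ∈ ⁅N, (⊤ : Subgroup G)⁆) :
    ∃ y y' : Fin n → G, (∀ i, y i ∈ N) ∧ (∀ i, y' i ∈ N) ∧
      (((List.finRange n).map fun i => ⁅a' i * y i, b' i * y' i⁆).prod)⁻¹ * ρ ∈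
        ⁅⁅N, (⊤ : Subgroup G)⁆, (⊤ : Subgroup G)⁆ := by
  set M : Subgroup G := ⁅⁅N, (⊤ : Subgroup G)⁆, (⊤ : Subgroup G)⁆ with hM
  let f : G →* G ⧸ M := QuotientGroup.mk' M
  have hf : Function.Surjective f := QuotientGroup.mk'_surjective M
  have hfk : ∀ x : G, f x = 1 ↔ x ∈ M := fun x => by
    rw [← MonoidHom.mem_ker]
    rw [QuotientGroup.ker_mk']
  have hc : ∀ n ∈ N.map f, ∀ g x : G ⧸ M, ⁅n, g⁆ * x = x * ⁅n, g⁆ := by
    rintro _ ⟨n, hn, rfl⟩ g x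
    obtain ⟨g, rfl⟩ := hf g
    obtain ⟨x, rfl⟩ := hf x
    have h1 : ⁅⁅n, g⁆, x⁆ ∈ M :=
      Subgroup.commutator_mem_commutator (Subgroup.commutator_mem_commutator hn trivial) trivial
    have h2 := (hfk _).2 h1
    rw [map_commutatorElement, map_commutatorElement] at h2
    exact commutatorElement_eq_one_iff_mul_comm.1 h2
  have htop : (⊤ : Subgroup G).map f = ⊤ := by
    rw [← MonoidHom.range_eq_map, MonoidHom.range_eq_top.2 hf]
  have hcomm : (commutator G).map f = commutator (G ⧸ M) := by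
    rw [commutator_def, Subgroup.map_commutator, htop, commutator_def]
  have hN' : N.map f ≤ commutator (G ⧸ M) := by
    rw [← hcomm]
    exact Subgroup.map_mono hN
  obtain ⟨L, hL⟩ : ∃ L : List (Fin n ⊕ Fin n), L = (List.finRange n).map Sum.inl ++ (List.finRange n).map Sum.inr :=
    ⟨_, rfl⟩
  have hLn : L.Nodup := by
    rw [hL, List.nodup_append]
    refine ⟨(List.nodup_finRange n).map Sum.inl_injective, (List.nodup_finRange n).map Sum.inr_injective, ?_⟩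
    intro x hx y hy hxy
    obtain ⟨i, -, rfl⟩ := List.mem_map.1 hx
    obtain ⟨k, -, rfl⟩ := List.mem_map.1 hy
    exact Sum.inl_ne_inr hxy
  have hLm : ∀ x : Fin n ⊕ Fin n, x ∈ L := by
    intro x
    rw [hL, List.mem_append]
    rcases x with i | i
    · exact Or.inl (List.mem_map.2 ⟨i, List.mem_finRange i, rfl⟩)
    · exact Or.inr (List.mem_map.2 ⟨i, List.mem_finRange i, rfl⟩)
  have hu : Subgroup.closure {x | ∃ i ∈ L, f (Sum.elim a b i) = x} = ⊤ := by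
    have h1 : {x | ∃ i ∈ L, f (Sum.elim a b i) = x} = f '' (Set.range a ∪ Set.range b) := by
      ext x
      constructor
      · rintro ⟨i, -, rfl⟩
        refine ⟨_, ?_, rfl⟩
        rcases i with i | i
        · exact Or.inl ⟨i, rfl⟩
        · exact Or.inr ⟨i, rfl⟩
      · rintro ⟨_, ⟨i, rfl⟩ | ⟨i, rfl⟩, rfl⟩
        · exact ⟨Sum.inl i, hLm _, rfl⟩
        · exact ⟨Sum.inr i, hLm _, rfl⟩
    rw [h1, ← MonoidHom.map_closure, hg, htop]
  have hw' : f ((((List.finRange n).map fun i => ⁅a' i, b' i⁆).prod)⁻¹ * ρ) ∈ ⁅N.map f, (⊤ : Subgroup (G ⧸ M))⁆ := by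
    have h1 := Subgroup.mem_map_of_mem f hw
    rwa [Subgroup.map_commutator, htop] at h1
  obtain ⟨r, hr, h1⟩ := sur_cen hc (fun i => f (Sum.elim a b i)) hLn hu hw'
  choose s hs hs2 using fun i => hr i
  refine ⟨fun i => (s (Sum.inr i))⁻¹, fun i => s (Sum.inl i), fun i => N.inv_mem (hs _), fun i => hs _, ?_⟩
  rw [← hfk, map_mul, map_inv, map_list_prod, List.map_map]
  have hA : ∀ i, (f (a i))⁻¹ * f (a' i) ∈ commutator (G ⧸ M) := fun i => by
    rw [← hcomm, ← map_inv, ← map_mul]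
    exact Subgroup.mem_map_of_mem f (ha i)
  have hB : ∀ i, (f (b i))⁻¹ * f (b' i) ∈ commutator (G ⧸ M) := fun i => by
    rw [← hcomm, ← map_inv, ← map_mul]
    exact Subgroup.mem_map_of_mem f (hb i)
  have hcl : ∀ n ∈ N.map f, ∀ g x : G ⧸ M, ⁅g, n⁆ * x = x * ⁅g, n⁆ := fun n hn g x => cen_left hc hn g x
  have h3 : (List.finRange n).map (f ∘ fun i => ⁅a' i * (s (Sum.inr i))⁻¹, b' i * s (Sum.inl i)⁆) =
      (List.finRange n).map fun i => ⁅f (a' i), f (b' i)⁆ * (⁅f (a i), r (Sum.inl i)⁆ * ⁅f (b i), r (Sum.inr i)⁆) := by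
    apply List.map_congr_left
    intro i _
    show f ⁅a' i * (s (Sum.inr i))⁻¹, b' i * s (Sum.inl i)⁆ = _
    rw [map_commutatorElement, map_mul, map_mul, map_inv, hs2, hs2,
      br_two hc hN' ((N.map f).inv_mem (hr (Sum.inr i))) (hr (Sum.inl i))]
    have h4 : ⁅(r (Sum.inr i))⁻¹, f (b' i)⁆ = ⁅f (b i), r (Sum.inr i)⁆ := by
      have h5 : ⁅f (b' i), r (Sum.inr i)⁆ = ⁅f (b i), r (Sum.inr i)⁆ := br_left hc (hr (Sum.inr i)) (hB i)
      rw [← h5]
      have h6 : ⁅f (b' i), (r (Sum.inr i))⁻¹⁆ * ⁅f (b' i), r (Sum.inr i)⁆ = 1 := by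
        rw [← br_mul hc (hr (Sum.inr i)), inv_mul_cancel, commutatorElement_one_right]
      rw [← commutatorElement_inv]
      exact inv_eq_of_mul_eq_one_right h6
    have h5 : ⁅f (a' i), r (Sum.inl i)⁆ = ⁅f (a i), r (Sum.inl i)⁆ := br_left hc (hr (Sum.inl i)) (hA i)
    rw [h4, h5, hcl _ (hr (Sum.inr i)) (f (b i))]
  rw [h3, cen_prod (fun i => ⁅f (a' i), f (b' i)⁆) (fun i => ⁅f (a i), r (Sum.inl i)⁆ * ⁅f (b i), r (Sum.inr i)⁆)
    (fun i x => by
      rw [mul_assoc, hcl _ (hr (Sum.inr i)), ← mul_assoc, hcl _ (hr (Sum.inl i)), mul_assoc]),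
    cen_prod (fun i => ⁅f (a i), r (Sum.inl i)⁆) (fun i => ⁅f (b i), r (Sum.inr i)⁆)
    (fun i x => hcl _ (hr (Sum.inr i)) _ x)]
  have h6 : (L.map fun i => ⁅f (Sum.elim a b i), r i⁆).prod =
      ((List.finRange n).map fun i => ⁅f (a i), r (Sum.inl i)⁆).prod *
        ((List.finRange n).map fun i => ⁅f (b i), r (Sum.inr i)⁆).prod := by
    rw [hL, List.map_append, List.prod_append, List.map_map, List.map_map]
    rfl
  rw [← h6, h1, map_mul, map_inv, map_list_prod, List.map_map]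
  have h7 : (List.finRange n).map (f ∘ fun i => ⁅a' i, b' i⁆) = (List.finRange n).map fun i => ⁅f (a' i), f (b' i)⁆ := by
    apply List.map_congr_left
    intro i _
    show f ⁅a' i, b' i⁆ = _
    rw [map_commutatorElement]
  rw [h7]
  group

theorem nf_aux {n : ℕ} {a b : Fin n → G}
    (hg : Subgroup.closure (Set.range a ∪ Set.range b) = ⊤) (ρ : G)
    (hw : (((List.finRange n).map fun i => ⁅a i, b i⁆).prod)⁻¹ * ρ ∈ (⊤ : Subgroup G).lowerCentralSeries 2) (j : ℕ) :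
    ∃ a' b' : Fin n → G, (∀ i, (a i)⁻¹ * a' i ∈ commutator G) ∧ (∀ i, (b i)⁻¹ * b' i ∈ commutator G) ∧
      (((List.finRange n).map fun i => ⁅a' i, b' i⁆).prod)⁻¹ * ρ ∈ (⊤ : Subgroup G).lowerCentralSeries (j + 2) := by
  induction j with
  | zero =>
    exact ⟨a, b, fun i => by rw [inv_mul_cancel]; exact one_mem _, fun i => by rw [inv_mul_cancel]; exact one_mem _, hw⟩
  | succ j ih =>
    obtain ⟨a', b', ha, hb, h⟩ := ih
    have hN : (⊤ : Subgroup G).lowerCentralSeries (j + 1) ≤ commutator G :=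
      (⊤ : Subgroup G).lowerCentralSeries_antitone (Nat.succ_le_succ (Nat.zero_le j))
    obtain ⟨y, y', hy, hy', h'⟩ := nf_step ((⊤ : Subgroup G).lowerCentralSeries (j + 1)) hN hg ha hb ρ h
    refine ⟨fun i => a' i * y i, fun i => b' i * y' i, fun i => ?_, fun i => ?_, h'⟩
    · rw [← mul_assoc]
      exact mul_mem (ha i) (hN (hy i))
    · rw [← mul_assoc]
      exact mul_mem (hb i) (hN (hy' i))

/-- **normal form** -/
theorem nf [Group.IsNilpotent G] {n : ℕ} (a b : Fin n → G)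
    (hg : Subgroup.closure (Set.range a ∪ Set.range b) = ⊤) (ρ : G)
    (hw : (((List.finRange n).map fun i => ⁅a i, b i⁆).prod)⁻¹ * ρ ∈ (⊤ : Subgroup G).lowerCentralSeries 2) :
    ∃ a' b' : Fin n → G, (∀ i, (a i)⁻¹ * a' i ∈ commutator G) ∧ (∀ i, (b i)⁻¹ * b' i ∈ commutator G) ∧
      ((List.finRange n).map fun i => ⁅a' i, b' i⁆).prod = ρ := by
  obtain ⟨c, hc⟩ := Subgroup.nilpotent_iff_lowerCentralSeries.1 (inferInstance : Group.IsNilpotent G)
  obtain ⟨a', b', ha, hb, h⟩ := nf_aux hg ρ hw c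
  refine ⟨a', b', ha, hb, ?_⟩
  have h3 : (⊤ : Subgroup G).lowerCentralSeries (c + 2) ≤ ⊥ := by
    rw [← hc]
    exact (⊤ : Subgroup G).lowerCentralSeries_antitone (Nat.le_add_right c 2)
  have h4 := Subgroup.mem_bot.1 (h3 h)
  exact (inv_mul_eq_one.1 h4)

end H29.S3
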