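import Pool.Agent.H77.S3.Abs

/-!
# [H29 S3 NFP] the normal form of a relator in a finite `p`-group

`nfp`: `G` a finite `p`-group, generated by `a i`, `b i`, `Φ` generated by the commutators and the `p`-th powers; if
`ρ = ∏ [a i, b i]` modulo `[Φ, G]`, then `ρ = ∏ [a' i, b' i]` with `a' i ∈ a i Φ`, `b' i ∈ b i Φ`.
-/

set_option autoImplicit false
set_option linter.dupNamespace false

open scoped Classical commutatorElement

noncomputable section

namespace H29.S3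

open H77.S3

/-- commutators and `p`-th powers -/
def Ph (p : ℕ) (G : Type*) [Group G] : Subgroup G :=
  commutator G ⊔ Subgroup.closure (Set.range fun x : G => x ^ p)

instance pw_normal (p : ℕ) (G : Type*) [Group G] : (Subgroup.closure (Set.range fun x : G => x ^ p)).Normal := by
  refine ⟨fun n hn g => ?_⟩
  induction hn using Subgroup.closure_induction with
  | mem x hx =>
    obtain ⟨y, rfl⟩ := hx
    exact Subgroup.subset_closure ⟨g * y * g⁻¹, conj_pow⟩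
  | one => simp [one_mem]
  | mul x y _ _ hx hy =>
    have h : g * (x * y) * g⁻¹ = g * x * g⁻¹ * (g * y * g⁻¹) := by group
    rw [h]
    exact mul_mem hx hy
  | inv x _ hx =>
    have h : g * x⁻¹ * g⁻¹ = (g * x * g⁻¹)⁻¹ := by group
    rw [h]
    exact inv_mem hx

instance ph_normal (p : ℕ) (G : Type*) [Group G] : (Ph p G).Normal := by
  unfold Ph
  infer_instance

/-- the next term of the series -/
def nx {G : Type*} [Group G] (p : ℕ) (N : Subgroup G) : Subgroup G :=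
  ⁅N, (⊤ : Subgroup G)⁆ ⊔ Subgroup.normalClosure ((fun x : G => x ^ p) '' (N : Set G))

instance nx_normal {G : Type*} [Group G] (p : ℕ) (N : Subgroup G) [N.Normal] : (nx p N).Normal := by
  unfold nx
  infer_instance

theorem nx_le {G : Type*} [Group G] (p : ℕ) (N : Subgroup G) [N.Normal] : nx p N ≤ N := by
  unfold nx
  refine sup_le (Subgroup.commutator_le_left N ⊤) (Subgroup.normalClosure_le_normal ?_)
  rintro _ ⟨x, hx, rfl⟩
  exact N.pow_mem hx p

theorem pow_nx {G : Type*} [Group G] (p : ℕ) (N : Subgroup G) {x : G} (hx : x ∈ N) : x ^ p ∈ nx p N :=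
  (le_sup_right : _ ≤ nx p N) (Subgroup.subset_normalClosure ⟨x, hx, rfl⟩)

theorem com_nx {G : Type*} [Group G] (p : ℕ) (N : Subgroup G) : ⁅N, (⊤ : Subgroup G)⁆ ≤ nx p N := le_sup_left

/-- a nontrivial normal subgroup of a nilpotent group meets the centre -/
theorem meet_cen {G : Type*} [Group G] [Group.IsNilpotent G] (N : Subgroup G) [N.Normal] (h : N ≠ ⊥) :
    ∃ z ∈ N, z ≠ 1 ∧ ∀ g, z * g = g * z := by
  obtain ⟨c, hc⟩ := Subgroup.nilpotent_iff_lowerCentralSeries.1 (inferInstance : Group.IsNilpotent G)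
  have hex : ∃ j, dn N j = ⊥ := ⟨c, le_bot_iff.1 (hc ▸ dn_lcs N c)⟩
  have h1 := Nat.find_spec hex
  obtain ⟨j, hj⟩ : ∃ j, j = Nat.find hex := ⟨_, rfl⟩
  rw [← hj] at h1
  rcases j with _ | j
  · exact absurd h1 h
  · have h2 : dn N j ≠ ⊥ := Nat.find_min hex (by omega)
    rcases Subgroup.bot_or_exists_ne_one (dn N j) with h3 | ⟨z, hz, hz1⟩
    · exact absurd h3 h2
    · refine ⟨z, dn_le N j hz, hz1, fun g => ?_⟩
      have h4 : ⁅z, g⁆ ∈ dn N (j + 1) := Subgroup.commutator_mem_commutator hz trivial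
      rw [h1] at h4
      exact commutatorElement_eq_one_iff_mul_comm.1 (Subgroup.mem_bot.1 h4)

theorem nx_lt {p : ℕ} [hp : Fact p.Prime] {G : Type*} [Group G] [Finite G] (hG : IsPGroup p G) (N : Subgroup G)
    [N.Normal] (h : N ≠ ⊥) : nx p N < N := by
  have hfin : {K : Subgroup G | K.Normal ∧ K < N}.Finite := Set.toFinite _
  obtain ⟨K, hK⟩ := hfin.exists_maximal ⟨⊥, inferInstance, bot_lt_iff_ne_bot.2 h⟩
  have hKn : K.Normal := hK.1.1
  have hKN : K < N := hK.1.2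
  have hmax : ∀ K' : Subgroup G, K'.Normal → K' < N → K ≤ K' → K' ≤ K := fun K' h1 h2 h3 => hK.2 ⟨h1, h2⟩ h3
  refine lt_of_le_of_lt ?_ hKN
  let π : G →* G ⧸ K := QuotientGroup.mk' K
  have hπ : Function.Surjective π := QuotientGroup.mk'_surjective K
  have hker : ∀ x : G, π x = 1 ↔ x ∈ K := fun x => by
    rw [← MonoidHom.mem_ker]
    rw [QuotientGroup.ker_mk']
  have hQ : IsPGroup p (G ⧸ K) := hG.to_quotient K
  have : Group.IsNilpotent (G ⧸ K) := hQ.isNilpotent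
  have hNm : N.map π ≠ ⊥ := by
    intro h1
    apply hKN.not_ge
    intro x hx
    rw [← hker]
    exact Subgroup.mem_bot.1 (h1 ▸ Subgroup.mem_map_of_mem π hx)
  have hNn : (N.map π).Normal := Subgroup.Normal.map inferInstance π hπ
  obtain ⟨z0, hz0, hz01, hz0c⟩ := meet_cen (N.map π) hNm
  obtain ⟨z, hz, hz1, hzc, hzp⟩ : ∃ z ∈ N.map π, z ≠ 1 ∧ (∀ g, z * g = g * z) ∧ z ^ p = 1 := by
    obtain ⟨k, hk⟩ := hQ z0
    have hex : ∃ k, z0 ^ p ^ k = 1 := ⟨k, hk⟩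
    obtain ⟨j, hj⟩ : ∃ j, j = Nat.find hex := ⟨_, rfl⟩
    have h1 := Nat.find_spec hex
    rw [← hj] at h1
    rcases j with _ | j
    · rw [pow_zero, pow_one] at h1
      exact absurd h1 hz01
    · refine ⟨z0 ^ p ^ j, (N.map π).pow_mem hz0 _, Nat.find_min hex (by omega), fun g => ?_, ?_⟩
      · exact (Commute.pow_left (hz0c g) (p ^ j))
      · rw [← pow_mul, ← pow_succ]
        exact h1
  have hzn : (Subgroup.zpowers z).Normal := by
    refine ⟨fun x hx g => ?_⟩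
    obtain ⟨i, rfl⟩ := Subgroup.mem_zpowers_iff.1 hx
    have h1 : g * z ^ i * g⁻¹ = z ^ i := by
      rw [← (Commute.zpow_left (hzc g) i : z ^ i * g = g * z ^ i), mul_inv_cancel_right]
    rw [h1]
    exact hx
  have hKz : K < (Subgroup.zpowers z).comap π := by
    refine lt_of_le_of_ne (fun x hx => ?_) ?_
    · rw [Subgroup.mem_comap, (hker x).2 hx]
      exact one_mem _
    · intro h1
      obtain ⟨y, hy⟩ := hπ z
      have h2 : y ∈ (Subgroup.zpowers z).comap π := by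
        rw [Subgroup.mem_comap, hy]
        exact Subgroup.mem_zpowers z
      rw [← h1, ← hker, hy] at h2
      exact hz1 h2
  have hzN : (Subgroup.zpowers z).comap π ≤ N := by
    intro x hx
    obtain ⟨i, hi⟩ := Subgroup.mem_zpowers_iff.1 (Subgroup.mem_comap.1 hx)
    have h1 : π x ∈ N.map π := by
      rw [← hi]
      exact (N.map π).zpow_mem hz i
    obtain ⟨y, hy, hyx⟩ := h1
    have h2 : y⁻¹ * x ∈ K := by
      rw [← hker, map_mul, map_inv, hyx, inv_mul_cancel]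
    have h3 : x = y * (y⁻¹ * x) := by group
    rw [h3]
    exact N.mul_mem hy (hKN.le h2)
  have hEq : (Subgroup.zpowers z).comap π = N := by
    by_contra h1
    have h2 : (Subgroup.zpowers z).comap π < N := lt_of_le_of_ne hzN h1
    exact hKz.not_ge (hmax _ inferInstance h2 hKz.le)
  have hcen : ∀ n ∈ N, ∃ i : ℤ, z ^ i = π n := by
    intro n hn
    rw [← hEq] at hn
    exact Subgroup.mem_zpowers_iff.1 (Subgroup.mem_comap.1 hn)
  unfold nx
  refine sup_le ?_ (Subgroup.normalClosure_le_normal ?_)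
  · rw [Subgroup.commutator_le]
    intro n hn g _
    obtain ⟨i, hi⟩ := hcen n hn
    rw [← hker, map_commutatorElement, ← hi, commutatorElement_eq_one_iff_mul_comm]
    exact Commute.zpow_left (hzc (π g)) i
  · rintro _ ⟨n, hn, rfl⟩
    obtain ⟨i, hi⟩ := hcen n hn
    show n ^ p ∈ K
    rw [← hker, map_pow, ← hi, ← zpow_natCast, ← zpow_mul, mul_comm, zpow_mul, zpow_natCast, hzp, one_zpow]

/-- the series -/
def sr {G : Type*} [Group G] (p : ℕ) (N : Subgroup G) : ℕ → Subgroup G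
  | 0 => N
  | j + 1 => nx p (sr p N j)

instance sr_normal {G : Type*} [Group G] (p : ℕ) (N : Subgroup G) [N.Normal] : ∀ j, (sr p N j).Normal
  | 0 => by unfold sr; infer_instance
  | j + 1 => by
    unfold sr
    have := sr_normal p N j
    infer_instance

theorem sr_le {G : Type*} [Group G] (p : ℕ) (N : Subgroup G) [N.Normal] (j : ℕ) : sr p N j ≤ N := by
  induction j with
  | zero => exact le_refl _
  | succ j ih => exact (nx_le p (sr p N j)).trans ih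

theorem sr_bot {p : ℕ} [hp : Fact p.Prime] {G : Type*} [Group G] [Finite G] (hG : IsPGroup p G) (N : Subgroup G)
    [N.Normal] : ∃ j, sr p N j = ⊥ := by
  by_contra hcon
  push Not at hcon
  have h1 : ∀ j, Nat.card (sr p N j) + j ≤ Nat.card N := by
    intro j
    induction j with
    | zero => exact le_refl _
    | succ j ih =>
      have h2 := nx_lt hG (sr p N j) (hcon j)
      have h3 : Nat.card (sr p N (j + 1)) < Nat.card (sr p N j) := by
        have h4 : (sr p N (j + 1) : Set G) ⊂ (sr p N j : Set G) := h2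
        have h5 := Set.ncard_lt_ncard h4 (Set.toFinite _)
        exact h5
      omega
  have h2 := h1 (Nat.card N + 1)
  omega

section Cen

variable {Q : Type*} [Group Q] {N : Subgroup Q}

/-- `[N, Φ] = 1` if `[N, Q]` is central and killed by `p` -/
theorem br_ph {p : ℕ} (h : ∀ n ∈ N, ∀ g x : Q, ⁅n, g⁆ * x = x * ⁅n, g⁆) (hp : ∀ n ∈ N, ∀ g : Q, ⁅n, g⁆ ^ p = 1)
    {n : Q} (hn : n ∈ N) {y : Q} (hy : y ∈ Ph p Q) : ⁅n, y⁆ = 1 := by
  have hinv : ∀ g : Q, ⁅n, g⁻¹⁆ = ⁅n, g⁆⁻¹ := by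
    intro g
    have h2 : ⁅n, g⁆ * ⁅n, g⁻¹⁆ = 1 := by
      rw [← br_gmul h hn, mul_inv_cancel, commutatorElement_one_right]
    exact (inv_eq_of_mul_eq_one_right h2).symm
  let f : Q →* Q :=
    { toFun := fun g => ⁅n, g⁆
      map_one' := commutatorElement_one_right n
      map_mul' := fun g k => br_gmul h hn g k }
  have hle : Ph p Q ≤ f.ker := by
    unfold Ph
    refine sup_le ?_ ?_
    · rw [commutator_eq_closure, Subgroup.closure_le]
      rintro _ ⟨g, k, rfl⟩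
      show f ⁅g, k⁆ = 1
      rw [map_commutatorElement, commutatorElement_eq_one_iff_mul_comm]
      exact h n hn g ⁅n, k⁆
    · rw [Subgroup.closure_le]
      rintro _ ⟨g, rfl⟩
      show f (g ^ p) = 1
      rw [map_pow]
      exact hp n hn g
  exact hle hy

theorem brp_left {p : ℕ} (h : ∀ n ∈ N, ∀ g x : Q, ⁅n, g⁆ * x = x * ⁅n, g⁆) (hp : ∀ n ∈ N, ∀ g : Q, ⁅n, g⁆ ^ p = 1)
    {n : Q} (hn : n ∈ N) {a a' : Q} (hy : a⁻¹ * a' ∈ Ph p Q) : ⁅a', n⁆ = ⁅a, n⁆ := by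
  have h1 : ⁅n, a'⁆ = ⁅n, a⁆ := by
    have h2 : a' = a * (a⁻¹ * a') := by group
    rw [h2, br_gmul h hn, br_ph h hp hn hy, mul_one]
  rw [← commutatorElement_inv n a', ← commutatorElement_inv n a, h1]

/-- the commutator after a change in `N` -/
theorem brp_two {p : ℕ} (h : ∀ n ∈ N, ∀ g x : Q, ⁅n, g⁆ * x = x * ⁅n, g⁆) (hp : ∀ n ∈ N, ∀ g : Q, ⁅n, g⁆ ^ p = 1)
    (hN : N ≤ Ph p Q) {y y' : Q}
    (hy : y ∈ N) (hy' : y' ∈ N) (a b : Q) : ⁅a * y, b * y'⁆ = ⁅a, b⁆ * (⁅y, b⁆ * ⁅a, y'⁆) := by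
  have h1 : ⁅y, b * y'⁆ = ⁅y, b⁆ := by rw [br_gmul h hy, br_ph h hp hy (hN hy'), mul_one]
  have h2 : ⁅a, b * y'⁆ = ⁅a, b⁆ * ⁅a, y'⁆ := br_mul h hy' a b
  have h3 : ⁅a * y, b * y'⁆ = a * ⁅y, b * y'⁆ * a⁻¹ * ⁅a, b * y'⁆ := by
    simp only [commutatorElement_def]
    group
  rw [h3, h1, h2]
  have h4 := h y hy b a
  have h5 := h y hy b ⁅a, b⁆
  calc a * ⁅y, b⁆ * a⁻¹ * (⁅a, b⁆ * ⁅a, y'⁆) = ⁅y, b⁆ * a * a⁻¹ * (⁅a, b⁆ * ⁅a, y'⁆) := by rw [h4]
    _ = ⁅y, b⁆ * ⁅a, b⁆ * ⁅a, y'⁆ := by group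
    _ = _ := by rw [h5, mul_assoc]

theorem cenp_prod {ι : Type*} (f z : ι → Q) (hz : ∀ i, ∀ x, z i * x = x * z i) (L : List ι) :
    (L.map fun i => f i * z i).prod = (L.map f).prod * (L.map z).prod := by
  induction L with
  | nil => simp
  | cons a L ih =>
    rw [List.map_cons, List.prod_cons, List.map_cons, List.prod_cons, List.map_cons, List.prod_cons, ih]
    have h2 := hz a (L.map f).prod
    calc f a * z a * ((L.map f).prod * (L.map z).prod) = f a * (z a * (L.map f).prod) * (L.map z).prod := by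
          simp only [mul_assoc]
      _ = f a * ((L.map f).prod * z a) * (L.map z).prod := by rw [h2]
      _ = _ := by simp only [mul_assoc]

end Cen

variable {G : Type*} [Group G]

theorem map_ph {G' : Type*} [Group G'] (p : ℕ) (f : G →* G') (hf : Function.Surjective f) :
    (Ph p G).map f = Ph p G' := by
  have htop : (⊤ : Subgroup G).map f = ⊤ := by
    rw [← MonoidHom.range_eq_map, MonoidHom.range_eq_top.2 hf]
  unfold Ph
  rw [Subgroup.map_sup, commutator_def, Subgroup.map_commutator, htop, commutator_def, MonoidHom.map_closure]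
  congr 2
  ext x
  constructor
  · rintro ⟨_, ⟨y, rfl⟩, rfl⟩
    exact ⟨f y, (map_pow f y p).symm⟩
  · rintro ⟨y, rfl⟩
    obtain ⟨z, rfl⟩ := hf y
    exact ⟨z ^ p, ⟨z, rfl⟩, map_pow f z p⟩

theorem nfp_step {p : ℕ} {ι : Type*} (N : Subgroup G) [N.Normal] (hN : N ≤ Ph p G) {l : List ι} (hl : l.Nodup) {a b : ι → G}
    (hg : Subgroup.closure ({x | ∃ i ∈ l, a i = x} ∪ {x | ∃ i ∈ l, b i = x}) = ⊤) {a' b' : ι → G}
    (ha : ∀ i, (a i)⁻¹ * a' i ∈ Ph p G) (hb : ∀ i, (b i)⁻¹ * b' i ∈ Ph p G) (ρ : G)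
    (hw : ((l.map fun i => ⁅a' i, b' i⁆).prod)⁻¹ * ρ ∈ ⁅N, (⊤ : Subgroup G)⁆) :
    ∃ y y' : ι → G, (∀ i, y i ∈ N) ∧ (∀ i, y' i ∈ N) ∧
      ((l.map fun i => ⁅a' i * y i, b' i * y' i⁆).prod)⁻¹ * ρ ∈
        ⁅nx p N, (⊤ : Subgroup G)⁆ := by
  set M : Subgroup G := ⁅nx p N, (⊤ : Subgroup G)⁆ with hM
  let f : G →* G ⧸ M := QuotientGroup.mk' M
  have hf : Function.Surjective f := QuotientGroup.mk'_surjective M
  have hfk : ∀ x : G, f x = 1 ↔ x ∈ M := fun x => by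
    rw [← MonoidHom.mem_ker]
    rw [QuotientGroup.ker_mk']
  have hc : ∀ n ∈ N.map f, ∀ g x : G ⧸ M, ⁅n, g⁆ * x = x * ⁅n, g⁆ := by
    rintro _ ⟨n, hn, rfl⟩ g x
    obtain ⟨g, rfl⟩ := hf g
    obtain ⟨x, rfl⟩ := hf x
    have h1 : ⁅⁅n, g⁆, x⁆ ∈ M :=
      Subgroup.commutator_mem_commutator (com_nx p N (Subgroup.commutator_mem_commutator hn trivial)) trivial
    have h2 := (hfk _).2 h1
    rw [map_commutatorElement, map_commutatorElement] at h2
    exact commutatorElement_eq_one_iff_mul_comm.1 h2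
  have hcl : ∀ n ∈ N.map f, ∀ g x : G ⧸ M, ⁅g, n⁆ * x = x * ⁅g, n⁆ := fun n hn g x => cen_left hc hn g x
  have hpp : ∀ n ∈ N.map f, ∀ g : G ⧸ M, ⁅n, g⁆ ^ p = 1 := by
    intro n hn g
    have h1 : ∀ j : ℕ, ⁅n, g⁆ ^ j = ⁅n ^ j, g⁆ := by
      intro j
      induction j with
      | zero => rw [pow_zero, pow_zero, commutatorElement_one_left]
      | succ j ih =>
        rw [pow_succ, ih, pow_succ]
        have h2 : ⁅n ^ j * n, g⁆ = n ^ j * ⁅n, g⁆ * (n ^ j)⁻¹ * ⁅n ^ j, g⁆ := by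
          simp only [commutatorElement_def]
          group
        rw [h2, ← hc n hn g (n ^ j), mul_inv_cancel_right, hc n hn g]
    rw [h1]
    obtain ⟨n, hn, rfl⟩ := hn
    obtain ⟨g, rfl⟩ := hf g
    rw [← map_pow, ← map_commutatorElement, hfk]
    exact Subgroup.commutator_mem_commutator (pow_nx p N hn) trivial
  have htop : (⊤ : Subgroup G).map f = ⊤ := by
    rw [← MonoidHom.range_eq_map, MonoidHom.range_eq_top.2 hf]
  have hcomm : (Ph p G).map f = Ph p (G ⧸ M) := map_ph p f hf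
  have hN' : N.map f ≤ Ph p (G ⧸ M) := by
    rw [← hcomm]
    exact Subgroup.map_mono hN
  obtain ⟨L, hL⟩ : ∃ L : List (ι ⊕ ι), L = l.map Sum.inl ++ l.map Sum.inr := ⟨_, rfl⟩
  have hLn : L.Nodup := by
    rw [hL, List.nodup_append]
    refine ⟨hl.map Sum.inl_injective, hl.map Sum.inr_injective, ?_⟩
    intro x hx y hy hxy
    obtain ⟨i, -, rfl⟩ := List.mem_map.1 hx
    obtain ⟨k, -, rfl⟩ := List.mem_map.1 hy
    exact Sum.inl_ne_inr hxy
  have hu : Subgroup.closure {x | ∃ i ∈ L, f (Sum.elim a b i) = x} = ⊤ := by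
    have h1 : {x | ∃ i ∈ L, f (Sum.elim a b i) = x} =
        f '' ({x | ∃ i ∈ l, a i = x} ∪ {x | ∃ i ∈ l, b i = x}) := by
      ext x
      rw [hL]
      constructor
      · rintro ⟨i, hi, rfl⟩
        refine ⟨_, ?_, rfl⟩
        rcases i with i | i
        · refine Or.inl ⟨i, ?_, rfl⟩
          simpa using hi
        · refine Or.inr ⟨i, ?_, rfl⟩
          simpa using hi
      · rintro ⟨_, ⟨i, hi, rfl⟩ | ⟨i, hi, rfl⟩, rfl⟩
        · exact ⟨Sum.inl i, by simpa using hi, rfl⟩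
        · exact ⟨Sum.inr i, by simpa using hi, rfl⟩
    rw [h1, ← MonoidHom.map_closure, hg, htop]
  have hw' : f (((l.map fun i => ⁅a' i, b' i⁆).prod)⁻¹ * ρ) ∈ ⁅N.map f, (⊤ : Subgroup (G ⧸ M))⁆ := by
    have h1 := Subgroup.mem_map_of_mem f hw
    rwa [Subgroup.map_commutator, htop] at h1
  obtain ⟨r, hr, h1⟩ := sur_cen hc (fun i => f (Sum.elim a b i)) hLn hu hw'
  choose s hs hs2 using fun i => hr i
  refine ⟨fun i => (s (Sum.inr i))⁻¹, fun i => s (Sum.inl i), fun i => N.inv_mem (hs _), fun i => hs _, ?_⟩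
  rw [← hfk, map_mul, map_inv, map_list_prod, List.map_map]
  have hA : ∀ i, (f (a i))⁻¹ * f (a' i) ∈ Ph p (G ⧸ M) := fun i => by
    rw [← hcomm, ← map_inv, ← map_mul]
    exact Subgroup.mem_map_of_mem f (ha i)
  have hB : ∀ i, (f (b i))⁻¹ * f (b' i) ∈ Ph p (G ⧸ M) := fun i => by
    rw [← hcomm, ← map_inv, ← map_mul]
    exact Subgroup.mem_map_of_mem f (hb i)
  have h3 : l.map (f ∘ fun i => ⁅a' i * (s (Sum.inr i))⁻¹, b' i * s (Sum.inl i)⁆) =
      l.map fun i => ⁅f (a' i), f (b' i)⁆ * (⁅f (a i), r (Sum.inl i)⁆ * ⁅f (b i), r (Sum.inr i)⁆) := by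
    apply List.map_congr_left
    intro i _
    show f ⁅a' i * (s (Sum.inr i))⁻¹, b' i * s (Sum.inl i)⁆ = _
    rw [map_commutatorElement, map_mul, map_mul, map_inv, hs2, hs2,
      brp_two hc hpp hN' ((N.map f).inv_mem (hr (Sum.inr i))) (hr (Sum.inl i))]
    have h4 : ⁅(r (Sum.inr i))⁻¹, f (b' i)⁆ = ⁅f (b i), r (Sum.inr i)⁆ := by
      have h5 : ⁅f (b' i), r (Sum.inr i)⁆ = ⁅f (b i), r (Sum.inr i)⁆ := brp_left hc hpp (hr (Sum.inr i)) (hB i)
      rw [← h5]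
      have h6 : ⁅f (b' i), (r (Sum.inr i))⁻¹⁆ * ⁅f (b' i), r (Sum.inr i)⁆ = 1 := by
        rw [← br_mul hc (hr (Sum.inr i)), inv_mul_cancel, commutatorElement_one_right]
      rw [← commutatorElement_inv]
      exact inv_eq_of_mul_eq_one_right h6
    have h5 : ⁅f (a' i), r (Sum.inl i)⁆ = ⁅f (a i), r (Sum.inl i)⁆ := brp_left hc hpp (hr (Sum.inl i)) (hA i)
    rw [h4, h5, hcl _ (hr (Sum.inr i)) (f (b i))]
  rw [h3, cenp_prod (fun i => ⁅f (a' i), f (b' i)⁆) (fun i => ⁅f (a i), r (Sum.inl i)⁆ * ⁅f (b i), r (Sum.inr i)⁆)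
    (fun i x => by
      rw [mul_assoc, hcl _ (hr (Sum.inr i)), ← mul_assoc, hcl _ (hr (Sum.inl i)), mul_assoc]),
    cenp_prod (fun i => ⁅f (a i), r (Sum.inl i)⁆) (fun i => ⁅f (b i), r (Sum.inr i)⁆)
    (fun i x => hcl _ (hr (Sum.inr i)) _ x)]
  have h6 : (L.map fun i => ⁅f (Sum.elim a b i), r i⁆).prod =
      (l.map fun i => ⁅f (a i), r (Sum.inl i)⁆).prod * (l.map fun i => ⁅f (b i), r (Sum.inr i)⁆).prod := by
    rw [hL, List.map_append, List.prod_append, List.map_map, List.map_map]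
    rfl
  rw [← h6, h1, map_mul, map_inv, map_list_prod, List.map_map]
  have h7 : l.map (f ∘ fun i => ⁅a' i, b' i⁆) = l.map fun i => ⁅f (a' i), f (b' i)⁆ := by
    apply List.map_congr_left
    intro i _
    show f ⁅a' i, b' i⁆ = _
    rw [map_commutatorElement]
  rw [h7]
  group

theorem nfp_aux {p : ℕ} {ι : Type*} {l : List ι} (hl : l.Nodup) {a b : ι → G}
    (hg : Subgroup.closure ({x | ∃ i ∈ l, a i = x} ∪ {x | ∃ i ∈ l, b i = x}) = ⊤) (ρ : G)
    (hw : ((l.map fun i => ⁅a i, b i⁆).prod)⁻¹ * ρ ∈ ⁅Ph p G, (⊤ : Subgroup G)⁆) (j : ℕ) :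
    ∃ a' b' : ι → G, (∀ i, (a i)⁻¹ * a' i ∈ Ph p G) ∧ (∀ i, (b i)⁻¹ * b' i ∈ Ph p G) ∧
      ((l.map fun i => ⁅a' i, b' i⁆).prod)⁻¹ * ρ ∈ ⁅sr p (Ph p G) j, (⊤ : Subgroup G)⁆ := by
  induction j with
  | zero =>
    exact ⟨a, b, fun i => by rw [inv_mul_cancel]; exact one_mem _, fun i => by rw [inv_mul_cancel]; exact one_mem _, hw⟩
  | succ j ih =>
    obtain ⟨a', b', ha, hb, h⟩ := ih
    have hN := sr_le p (Ph p G) j
    obtain ⟨y, y', hy, hy', h'⟩ := nfp_step (sr p (Ph p G) j) hN hl hg ha hb ρ h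
    refine ⟨fun i => a' i * y i, fun i => b' i * y' i, fun i => ?_, fun i => ?_, h'⟩
    · rw [← mul_assoc]
      exact mul_mem (ha i) (hN (hy i))
    · rw [← mul_assoc]
      exact mul_mem (hb i) (hN (hy' i))

/-- **normal form in a finite `p`-group** -/
theorem nfp {p : ℕ} (hp : p.Prime) [Finite G] (hG : IsPGroup p G) {ι : Type*} {l : List ι} (hl : l.Nodup)
    (a b : ι → G) (hg : Subgroup.closure ({x | ∃ i ∈ l, a i = x} ∪ {x | ∃ i ∈ l, b i = x}) = ⊤) (ρ : G)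
    (hw : ((l.map fun i => ⁅a i, b i⁆).prod)⁻¹ * ρ ∈ ⁅Ph p G, (⊤ : Subgroup G)⁆) :
    ∃ a' b' : ι → G, (∀ i, (a i)⁻¹ * a' i ∈ Ph p G) ∧ (∀ i, (b i)⁻¹ * b' i ∈ Ph p G) ∧
      (l.map fun i => ⁅a' i, b' i⁆).prod = ρ := by
  have : Fact p.Prime := ⟨hp⟩
  obtain ⟨j, hj⟩ := sr_bot hG (Ph p G)
  obtain ⟨a', b', ha, hb, h⟩ := nfp_aux hl hg ρ hw j
  refine ⟨a', b', ha, hb, ?_⟩
  rw [hj, Subgroup.commutator_bot_left] at h
  exact inv_mul_eq_one.1 (Subgroup.mem_bot.1 h)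

end H29.S3
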